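import Pool.Agent.Q75.BM.Final

/-!
MP_bed24d_an, Q1, full answer: yes, the bifurcation current of a holomorphic family of
representations can give positive mass to the set of parameters whose representation is conjugate
into `PSL(2, ℝ)`; the mass of the complement can be made arbitrarily small.

Example. `G` is the group of functions `ℂ → PSL(2, ℂ)` generated by `A(λ) = ±(λ, -1; 1, 0)` and
`D(λ) = ±(1, 1; 0, 1)`; `ρ_λ` is the evaluation at `λ`, `Λ = ℂ`. The measure `μ` has the weights
`1 - 3ε` at `A` and `ε` at `A⁻¹, D, D⁻¹`; its support generates `G` as a semigroup. For real `λ`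
the representation `ρ_λ` has values in `PSL(2, ℝ)`. For a word `w` of length `n` with few letters
different from `A` the direction of the real vector `M_w(λ) v` turns by almost `n π` when `λ` goes
from `-3` to `3`, so the polynomials `⟨u, M_w(λ) v⟩`, `u`, `v` real, have almost all their zeros in
`[-3, 3]`; and `log ‖M_w(λ)‖` is, up to a bounded error, the average over the unit vectors `u`, `v` of
`log |⟨u, M_w(λ) v⟩|`, whose Laplacian is `2π` times the sum of the Dirac masses at the zeros.
-/

set_option autoImplicit false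

namespace Pool.Agent.Results.MP_bed24d_an.MassOnRealRepresentations

open Filter Topology MeasureTheory Set
open scoped ContDiff

/-- `SL(2, ℂ)` -/
abbrev SL : Type := Matrix.SpecialLinearGroup (Fin 2) ℂ

/-- `PSL(2, ℂ)` -/
abbrev PSL : Type := SL ⧸ Subgroup.center SL

/-- the projection of `SL(2, ℂ)` onto `PSL(2, ℂ)` -/
def pr : SL →* PSL := QuotientGroup.mk' (Subgroup.center SL)

/-- the norm of an element of `PSL(2, ℂ)`: the Hilbert-Schmidt norm of a representing matrix -/
noncomputable def nrm (x : PSL) : ℝ :=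
  Real.sqrt (∑ i, ∑ j, ‖((Quotient.out x : SL) : Matrix (Fin 2) (Fin 2) ℂ) i j‖ ^ 2)

/-- the representation `θ` is not elementary: its image is unbounded and it has no nonempty finite
invariant set on the Riemann sphere (a point of the sphere is a line `L` in `ℂ^2`) -/
def NonElementary {G : Type} [Group G] (θ : G →* PSL) : Prop :=
  (∀ C : ℝ, ∃ g : G, C < nrm (θ g)) ∧
  ∀ F : Set (Submodule ℂ (Fin 2 → ℂ)), F.Finite → F.Nonempty →
    (∀ L ∈ F, Module.finrank ℂ L = 1) →
    ¬ ∀ (g : G) (M : SL), pr M = θ g → ∀ L ∈ F, L.map (Matrix.toLin' M.1) ∈ F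

/-- the image of `θ` is conjugate in `PSL(2, ℂ)` into `PSL(2, ℝ)` -/
def IsReal {G : Type} [Group G] (θ : G →* PSL) : Prop :=
  ∃ P : PSL, ∀ g : G, ∃ A : Matrix.SpecialLinearGroup (Fin 2) ℝ,
    P * θ g * P⁻¹ = pr (Matrix.SpecialLinearGroup.map (algebraMap ℝ ℂ) A)

/-- holomorphic families of representations `ρ_λ : G → PSL(2, ℂ)` with parameter space `Λ = ℂ`:
`ρ_λ(g)` is holomorphic in `λ`, every `ρ_λ` is not elementary, `ρ_λ` is faithful for all `λ` outside
a countable set, and the `ρ_λ` are not all conjugate in `PSL(2, ℂ)` -/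
structure HolomorphicFamily {G : Type} [Group G] (ρ : ℂ → G →* PSL) : Prop where
  hol : ∀ g : G, ∃ M : ℂ → SL,
    (∀ i j, Differentiable ℂ fun l => (M l : Matrix (Fin 2) (Fin 2) ℂ) i j) ∧
    ∀ l, ρ l g = pr (M l)
  nonelementary : ∀ l, NonElementary (ρ l)
  faithful : {l : ℂ | ¬ Function.Injective (ρ l)}.Countable
  notConj : ∃ l l' : ℂ, ¬ ∃ P : PSL, ∀ g, ρ l' g = P * ρ l g * P⁻¹

/-- admissible measures: probability measures on `G` with finite support `S` and weights `p`, whose
support generates `G` as a semigroup -/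
structure Admissible {G : Type} [Group G] (S : Finset G) (p : G → ℝ) : Prop where
  pos : ∀ s ∈ S, 0 < p s
  sum : ∑ s ∈ S, p s = 1
  gen : Subsemigroup.closure (S : Set G) = ⊤

/-- the integral of `F` with respect to the `n`-th convolution power of the measure with support `S`
and weights `p` -/
noncomputable def convInt {G : Type} [Group G] (S : Finset G) (p : G → ℝ) : ℕ → (G → ℝ) → ℝ
  | 0, F => F 1
  | n + 1, F => ∑ s ∈ S, p s * convInt S p n (fun g => F (g * s))

/-- `c` is the Lyapunov exponent of `θ`: `(1/n) ∫ log ‖θ(g)‖ dμ^n(g) → c` -/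
def IsLyapunov {G : Type} [Group G] (S : Finset G) (p : G → ℝ) (θ : G →* PSL) (c : ℝ) : Prop :=
  Tendsto (fun n : ℕ => convInt S p n (fun g => Real.log (nrm (θ g))) / n) atTop (𝓝 c)

/-- `T = dd^c χ = (1/2π) Δ χ` on `ℂ` in the sense of distributions, `T` a locally finite measure -/
def IsBifurcationMeasure (χ : ℂ → ℝ) (T : Measure ℂ) : Prop :=
  IsLocallyFiniteMeasure T ∧ ∀ φ : ℂ → ℝ, ContDiff ℝ ∞ φ → HasCompactSupport φ →
    ∫ z, φ z ∂T = (1 / (2 * Real.pi)) * ∫ z, χ z * Laplacian.laplacian φ z

theorem conv_eq {G : Type} [Group G] (S : Finset G) (p : G → ℝ) (n : ℕ) (F : G → ℝ) :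
    Pool.Agent.Q75.BM.conv S p n F = convInt S p n F := by
  induction n generalizing F with
  | zero => rfl
  | succ n ih =>
    simp only [Pool.Agent.Q75.BM.conv, convInt]
    exact Finset.sum_congr rfl fun s _ => by rw [ih]

/-- For every `δ > 0` there are a holomorphic family of representations `ρ_λ : G → PSL(2, ℂ)`,
`λ ∈ ℂ`, an admissible measure on `G` and the Lyapunov exponent `χ(λ)` of `ρ_λ`, such that the
bifurcation measure `T = dd^c χ` exists and every such `T` has total mass at most `1` and gives mass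
at least `1 - δ` to the set of parameters whose representation is conjugate into `PSL(2, ℝ)`. -/
theorem result (δ : ℝ) (hδ : 0 < δ) :
    ∃ (G : Type) (_ : Group G) (ρ : ℂ → G →* PSL) (S : Finset G) (p : G → ℝ) (χ : ℂ → ℝ),
      HolomorphicFamily ρ ∧ Admissible S p ∧ (∀ l, IsLyapunov S p (ρ l) (χ l)) ∧
      (∃ T, IsBifurcationMeasure χ T) ∧
      ∀ T : Measure ℂ, IsBifurcationMeasure χ T → T univ ≤ 1 ∧
        ENNReal.ofReal (1 - δ) ≤ T {l | IsReal (ρ l)} := by
  obtain ⟨G, hG, ρ, S, p, χ, h1, h2, h3, h4, h5⟩ := Pool.Agent.Q75.BM.main δ hδ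
  refine ⟨G, hG, ρ, S, p, χ, ⟨h1.hol, h1.nonelementary, h1.faithful, h1.notConj⟩,
    ⟨h2.pos, h2.sum, h2.gen⟩, fun l => ?_, h4, h5⟩
  have h := h3 l
  unfold Pool.Agent.Q75.BM.IsLyapunov at h
  simp only [conv_eq] at h
  exact h

end Pool.Agent.Results.MP_bed24d_an.MassOnRealRepresentations
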